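import Pool.Agent.OPG.Stmts

set_option autoImplicit false

/-!
# OPG, row PTL: the path of ratios.
-/

namespace Pool.Agent.OPG.H21

open Finset Pool.Agent.OPG

theorem lsum_append (A B : List (ℕ × ℕ)) : lsum (A ++ B) = lsum A + lsum B := by
  unfold lsum
  rw [List.map_append, List.sum_append]

theorem lsum_nil : lsum [] = 0 := by simp [lsum]

theorem prod_getD (g : ℕ × ℕ → ℤˣ) (d : ℕ × ℕ) (L : List (ℕ × ℕ)) :
    ∏ i ∈ range L.length, g (L.getD i d) = (L.map g).prod := by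
  induction L with
  | nil => simp
  | cons a l ih =>
    rw [List.length_cons, prod_range_succ', List.map_cons, List.prod_cons, ← ih, mul_comm]
    rfl

theorem abs_exp_sub_one (x : ℝ) (hx : |x| ≤ 1) : |Real.exp x - 1| ≤ 2 * |x| :=
  Real.abs_exp_sub_one_le hx

theorem ptl (h1 : GrdStmt) : PtlStmt := by
  intro R n1 hR hn1
  have hn1pos : 1 ≤ n1 := by
    rcases Nat.eq_zero_or_pos n1 with h0 | h0
    · subst h0; exact absurd hn1 (by decide)
    · exact h0
  have hn1R : (1 : ℝ) ≤ n1 := by exact_mod_cast hn1pos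
  have hlog : 0 ≤ Real.log n1 := Real.log_nonneg hn1R
  set θ : ℝ := Real.log n1 / 2 with hθ
  have hθ0 : 0 ≤ θ := by positivity
  obtain ⟨C0, hC0, hC⟩ := h1 R θ hR hθ0
  refine ⟨4 * C0 + n1, 4 * n1, by omega, by omega, ?_⟩
  intro P hP hPo
  obtain ⟨L, hlen, hL, hpart, hsum⟩ := hC P (by omega) hPo
  have hP1 : 1 ≤ P := by omega
  have hPR : (1 : ℝ) ≤ P := by exact_mod_cast hP1
  have hPpow : (P : ℝ) ≤ (P : ℝ) ^ R := by
    calc (P : ℝ) = (P : ℝ) ^ 1 := (pow_one _).symm
      _ ≤ (P : ℝ) ^ R := pow_le_pow_right₀ hPR hR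
  have hPpos : (0 : ℝ) < (P : ℝ) ^ R := by linarith
  have h4C : (4 : ℝ) * C0 ≤ P := by
    have : 4 * C0 ≤ P := by omega
    exact_mod_cast this
  set Λ : List (ℕ × ℕ) := (L ++ L) ++ [(1, n1)] with hΛ
  have hΛlen : Λ.length = 2 * L.length + 1 := by
    rw [hΛ]; simp; ring
  have hlast : lsum [(1, n1)] = -Real.log n1 := by simp [lsum]
  have hlog2 : (0.69 : ℝ) < Real.log 2 := by have := Real.log_two_gt_d9; linarith
  have hlog4 : Real.log (4 * n1 : ℝ) = 2 * θ + 2 * Real.log 2 := by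
    rw [Real.log_mul (by norm_num) (by linarith), hθ]
    have : Real.log (4 : ℝ) = 2 * Real.log 2 := by
      rw [show (4 : ℝ) = 2 ^ 2 by norm_num, Real.log_pow]; norm_num
    rw [this]; ring
  have hend : |2 * lsum L - Real.log n1| ≤ 2 * (C0 / (P : ℝ) ^ R) := by
    have e : 2 * lsum L - Real.log n1 = 2 * (lsum L - θ) := by rw [hθ]; ring
    rw [e, abs_mul, abs_of_pos (by norm_num : (0 : ℝ) < 2)]
    linarith
  have hsmall : 2 * (C0 / (P : ℝ) ^ R) ≤ 1 := by
    rw [← mul_div_assoc, div_le_one hPpos]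
    linarith
  have htot : lsum Λ = 2 * lsum L - Real.log n1 := by
    rw [hΛ, lsum_append, lsum_append, hlast]; ring
  have hbd : ∀ i ≤ 2 * L.length + 1, |lsum (Λ.take i)| ≤ Real.log (4 * n1 : ℝ) := by
    intro i hi
    rcases Nat.lt_or_ge i (2 * L.length + 1) with h | h
    · have e : Λ.take i = L.take i ++ L.take (i - L.length) := by
        rw [hΛ, List.take_append_of_le_length (by rw [List.length_append]; omega), List.take_append]
      rw [e, lsum_append, hlog4]
      have a1 := abs_le.mp (hpart i)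
      have a2 := abs_le.mp (hpart (i - L.length))
      rw [abs_le]
      constructor <;> linarith [a1.1, a1.2, a2.1, a2.2]
    · have e : Λ.take i = Λ := List.take_of_length_le (by rw [hΛlen]; exact h)
      rw [e, htot, hlog4]
      linarith
  have hget : ∀ i (h : i < 2 * L.length + 1), Λ.getD i (1, 1) = Λ[i]'(by rw [hΛlen]; exact h) := by
    intro i h
    exact List.getD_eq_getElem _ _ _
  have hmem : ∀ i < 2 * L.length + 1, Λ.getD i (1, 1) ∈ Λ := by
    intro i h
    rw [hget i h]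
    exact List.getElem_mem _
  have hprop : ∀ x ∈ Λ, Odd x.1 ∧ Odd x.2 ∧ x.1 ≤ 2 * P ∧ x.2 ≤ 2 * P := by
    intro x hx
    rw [hΛ, List.mem_append, List.mem_append, List.mem_singleton, or_self] at hx
    rcases hx with hx | hx
    · obtain ⟨a, b, -, c, -, d⟩ := hL x hx
      exact ⟨a, b, c, d⟩
    · rw [hx]
      exact ⟨odd_one, hn1, by change 1 ≤ 2 * P; omega, by change n1 ≤ 2 * P; omega⟩
  refine ⟨2 * L.length + 1, fun i => (Λ.getD i (1, 1)).1, fun i => (Λ.getD i (1, 1)).2,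
    fun i => Real.exp (lsum (Λ.take i)), ?_, ?_, ?_, ?_, ?_, ?_, ?_⟩
  · have : 1 ≤ C0 * P := Nat.mul_pos hC0 hP1
    nlinarith [Nat.zero_le (n1 * P)]
  · intro i hi
    exact hprop _ (hmem i hi)
  · change Real.exp (lsum (Λ.take 0)) = 1
    rw [List.take_zero, lsum_nil, Real.exp_zero]
  · intro i hi
    have hx := hprop _ (hmem i hi)
    have hp : (0 : ℝ) < ((Λ.getD i (1, 1)).1 : ℝ) := by exact_mod_cast hx.1.pos
    have hq : (0 : ℝ) < ((Λ.getD i (1, 1)).2 : ℝ) := by exact_mod_cast hx.2.1.pos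
    have e : Λ.take (i + 1) = Λ.take i ++ [Λ.getD i (1, 1)] := by
      rw [hget i hi]
      exact List.take_succ_eq_append_getElem _
    change Real.exp (lsum (Λ.take (i + 1))) * ((Λ.getD i (1, 1)).2 : ℝ)
      = Real.exp (lsum (Λ.take i)) * ((Λ.getD i (1, 1)).1 : ℝ)
    have e2 : lsum [Λ.getD i (1, 1)] = Real.log ((Λ.getD i (1, 1)).1 : ℝ)
        - Real.log ((Λ.getD i (1, 1)).2 : ℝ) := by simp [lsum]
    rw [e, lsum_append, e2, Real.exp_add, Real.exp_sub, Real.exp_log hp, Real.exp_log hq]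
    field_simp
  · intro i hi
    have hb := abs_le.mp (hbd i hi)
    have h4n : (0 : ℝ) < 4 * n1 := by linarith
    have hcast : (((4 * n1 : ℕ) : ℕ) : ℝ) = 4 * (n1 : ℝ) := by push_cast; ring
    constructor
    · change 1 / (((4 * n1 : ℕ) : ℕ) : ℝ) ≤ Real.exp (lsum (Λ.take i))
      rw [hcast, one_div, ← Real.exp_log h4n, ← Real.exp_neg]
      exact Real.exp_le_exp.mpr hb.1
    · change Real.exp (lsum (Λ.take i)) ≤ (((4 * n1 : ℕ) : ℕ) : ℝ)
      rw [hcast]
      calc Real.exp (lsum (Λ.take i)) ≤ Real.exp (Real.log (4 * n1 : ℝ)) := Real.exp_le_exp.mpr hb.2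
        _ = 4 * n1 := Real.exp_log h4n
  · change |Real.exp (lsum (Λ.take (2 * L.length + 1))) - 1| ≤ _
    have e : Λ.take (2 * L.length + 1) = Λ := List.take_of_length_le (by rw [hΛlen])
    rw [e, htot]
    refine (abs_exp_sub_one _ (hend.trans hsmall)).trans ?_
    have hcast : (((4 * C0 + n1 : ℕ) : ℕ) : ℝ) = 4 * (C0 : ℝ) + n1 := by push_cast; ring
    rw [hcast]
    calc 2 * |2 * lsum L - Real.log n1| ≤ 2 * (2 * (C0 / (P : ℝ) ^ R)) := by linarith
      _ = 4 * C0 / (P : ℝ) ^ R := by ring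
      _ ≤ (4 * (C0 : ℝ) + n1) / (P : ℝ) ^ R := by
        apply div_le_div_of_nonneg_right _ hPpos.le
        linarith
  · intro f hf hfn
    have hf1 : f 1 = 1 := by
      have := hf 1 1 odd_one odd_one
      rw [mul_one] at this
      exact (mul_eq_left.mp this.symm)
    have e := prod_getD (fun x => f x.1 * f x.2) (1, 1) Λ
    rw [hΛlen] at e
    rw [e, hΛ, List.map_append, List.map_append, List.prod_append, List.prod_append]
    have hsq : ∀ u : ℤˣ, u * u = 1 := fun u => Int.units_mul_self u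
    rw [hsq, one_mul]
    simp [hf1, hfn]

end Pool.Agent.OPG.H21
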